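import Pool.Agent.T9h55.RM.RoughHyp

/-!
# Perturbations of `p_j² - 2` of size `p_j^ε`: almost primes for all large `n`

Let `p_j` be the `j`-th prime and `ε > 0` (arbitrarily small). There is `η > 0` with the following property. Let
`x_j = p_j² - 2 + ξ_j`, where the integers `ξ_j` are independent, uniformly distributed on `0, …, H_j - 1`, and
`p_j^ε ≤ H_j ≤ p_j²`. Say that `n = (n - m) + m` is a good representation if each of the three numbers `x_{n-m}`, `x_m`, `x_{p_m}`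
has at most `3 / η` prime factors, all of them at least `p_j^η` (`j = n - m`, `m`, `p_m`). Almost surely:

(1) the number of the good representations of `n` is of the exact order `n / (log n)³` for ALL large `n`;
(2) for all large `n` and all `M`, `A (log n)² (log log n)² ≤ M ≤ √n / 2`, the number of those with `m ≤ M` is of the exact order
`M / (log n (log M)²)`;
(3) each interval `(N, 2N]`, `N` large, contains an `n` without a good representation with `m ≤ a (log n)² (log log n)²`.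
-/

set_option autoImplicit false

namespace Pool.Agent.Results.MP_04ff0f_nt.AlmostPrimesTinyPerturbations

open MeasureTheory ProbabilityTheory Filter

/-- The `j`-th prime `p_j`, `j ≥ 1` (`p_1 = 2`). -/
noncomputable def p (j : ℕ) : ℕ := Nat.nth Nat.Prime (j - 1)

/-- `n` has at most `3 / η` prime factors, counted with multiplicity, and all prime factors are at least `q ^ η`. -/
def AlmostPrime (η : ℝ) (q n : ℕ) : Prop :=
  (∀ l : ℕ, l.Prime → l ∣ n → (q : ℝ) ^ η ≤ l) ∧ (n.primeFactorsList.length : ℝ) ≤ 3 / η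

/-- The numbers `x_{n-m}`, `x_m`, `x_{p_m}` are almost primes, each with respect to its `q = p_j`. -/
def Works (η : ℝ) (x : ℕ → ℕ) (n m : ℕ) : Prop :=
  AlmostPrime η (p (n - m)) (x (n - m)) ∧ AlmostPrime η (p m) (x m) ∧ AlmostPrime η (p (p m)) (x (p m))

/-- The number of the `m`, `1 ≤ m ≤ M`, which work for `n`. -/
noncomputable def repsUpTo (η : ℝ) (x : ℕ → ℕ) (n M : ℕ) : ℕ := {m : ℕ | 1 ≤ m ∧ m ≤ M ∧ Works η x n m}.ncard

/-- The number of the `m`, `1 ≤ m < n`, which work for `n`. -/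
noncomputable def reps (η : ℝ) (x : ℕ → ℕ) (n : ℕ) : ℕ := {m : ℕ | 1 ≤ m ∧ m < n ∧ Works η x n m}.ncard

/-- The integers `ξ_0, ξ_1, …` are independent random variables (on a probability space), and for `j ≥ 1` the variable `ξ_j` is
uniformly distributed on `0, …, H_j - 1`. -/
structure Perturbation {Ω : Type*} [MeasurableSpace Ω] (μ : Measure Ω) (H : ℕ → ℕ) (ξ : ℕ → Ω → ℕ) : Prop where
  prob : IsProbabilityMeasure μ
  meas : ∀ j, Measurable (ξ j)
  indep : iIndepFun ξ μ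
  unif : ∀ j, 1 ≤ j → ∀ h < H j, μ.real {ω | ξ j ω = h} = 1 / (H j : ℝ)

universe u

/-- For every `ε > 0` there are `η, a, A, c, C > 0` such that for all `H_j` with `p_j^ε ≤ H_j ≤ p_j²` and all perturbations `ξ`
with these `H_j`, `x_j = p_j² - 2 + ξ_j`, almost surely: (1) for all large `n` the number of the `m < n` which work for `n` is
between `c n / (log n)³` and `C n / (log n)³`; (2) for all large `n` and all `M ≥ A (log n)² (log log n)²` with `4 M² ≤ n` the
number of the `m ≤ M` which work is between `c M / (log n (log M)²)` and `C M / (log n (log M)²)`; (3) for all large `N` there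
is an `n`, `N < n ≤ 2N`, for which no `m ≤ a (log n)² (log log n)²` works. -/
theorem result : ∀ ε : ℝ, 0 < ε → ∃ η a A c C : ℝ, 0 < η ∧ 0 < a ∧ 0 < A ∧ 0 < c ∧ 0 < C ∧
    ∀ H : ℕ → ℕ, (∀ j, 1 ≤ j → (p j : ℝ) ^ ε ≤ H j ∧ (H j : ℝ) ≤ (p j : ℝ) ^ 2) →
      ∀ (Ω : Type u) [MeasurableSpace Ω] (μ : Measure Ω) (ξ : ℕ → Ω → ℕ), Perturbation μ H ξ → ∀ᵐ ω ∂μ,
        (∀ᶠ n : ℕ in atTop, c * (n / Real.log n ^ 3) ≤ (reps η (fun j => p j ^ 2 - 2 + ξ j ω) n : ℝ) ∧
          (reps η (fun j => p j ^ 2 - 2 + ξ j ω) n : ℝ) ≤ C * (n / Real.log n ^ 3)) ∧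
        (∀ᶠ n : ℕ in atTop, ∀ M : ℕ, A * (Real.log n ^ 2 * Real.log (Real.log n) ^ 2) ≤ M → 4 * M ^ 2 ≤ n →
          c * (M / (Real.log n * Real.log M ^ 2)) ≤ (repsUpTo η (fun j => p j ^ 2 - 2 + ξ j ω) n M : ℝ) ∧
          (repsUpTo η (fun j => p j ^ 2 - 2 + ξ j ω) n M : ℝ) ≤ C * (M / (Real.log n * Real.log M ^ 2))) ∧
        ∀ᶠ N : ℕ in atTop, ∃ n : ℕ, N < n ∧ n ≤ 2 * N ∧
          ∀ m : ℕ, 1 ≤ m → (m : ℝ) ≤ a * (Real.log n ^ 2 * Real.log (Real.log n) ^ 2) →
            ¬ Works η (fun j => p j ^ 2 - 2 + ξ j ω) n m := by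
  classical
  intro ε hε
  obtain ⟨η, c, C, hη, hc, hC, hyp⟩ := Pool.Agent.T9h55.RM.rough_hyp.{u} hε
  set A : ℝ := 2592 / c ^ 3 + 27 / (48 * C * (C ^ 2 + C)) with hA
  have hA1 : 3 ≤ c ^ 3 / 96 * (A / 9) := by
    have h1 : 2592 / c ^ 3 ≤ A := by
      have : 0 < 27 / (48 * C * (C ^ 2 + C)) := by positivity
      linarith
    rw [div_le_iff₀ (by positivity)] at h1
    nlinarith
  have hA2 : 3 ≤ 2 * (24 * C * (C ^ 2 + C)) * (A / 9) := by
    have h1 : 27 / (48 * C * (C ^ 2 + C)) ≤ A := by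
      have : 0 < 2592 / c ^ 3 := by positivity
      linarith
    rw [div_le_iff₀ (by positivity)] at h1
    nlinarith
  refine ⟨η, 1 / (768 * C * (C ^ 2 + C)) / 16, A, c ^ 3 / 128, 13 * (24 * (C ^ 3 + C ^ 2)), hη, by positivity, by positivity,
    by positivity, by positivity, fun H hH => ?_⟩
  intro Ω _ μ ξ hξ
  have := hξ.prob
  obtain ⟨h1, h2, h3, h4⟩ := hyp μ H ξ hH hξ.meas hξ.indep hξ.unif
  filter_upwards [Pool.Agent.T9h55.RM.law_rep h1 h2 hc hC h3 h4, Pool.Agent.T9h55.RM.law_small h1 h2 hc hC h3 h4 hA1 hA2,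
    Pool.Agent.T9h55.RM.law_gap h1 h2 hC h4] with ω hω0 hω hω'
  refine ⟨?_, ?_, ?_⟩
  · filter_upwards [hω0] with n hn
    have e : reps η (fun j => p j ^ 2 - 2 + ξ j ω) n =
        Pool.Agent.T9h55.RM.rep (fun j => {ω | Pool.Agent.T9h55.RM.AP η (Pool.Agent.T9h55.RM.P j)
          (Pool.Agent.T9h55.RM.P j ^ 2 - 2 + ξ j ω)}) n ω := by
      rw [← Pool.Agent.T9h55.RM.rep_ncard]
      rfl
    rw [e]
    obtain ⟨h5, h6⟩ := hn
    refine ⟨le_trans ?_ h5, h6.trans (le_of_eq (by ring))⟩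
    have h7 : (0 : ℝ) ≤ n / Real.log n ^ 3 := by positivity
    have h8 : c ^ 3 / 128 ≤ c ^ 3 / 64 := by
      have : 0 < c ^ 3 := by positivity
      linarith
    exact mul_le_mul_of_nonneg_right h8 h7
  · filter_upwards [hω] with n hn M hM1 hM2
    have e : repsUpTo η (fun j => p j ^ 2 - 2 + ξ j ω) n M =
        Pool.Agent.T9h55.RM.repM (fun j => {ω | Pool.Agent.T9h55.RM.AP η (Pool.Agent.T9h55.RM.P j)
          (Pool.Agent.T9h55.RM.P j ^ 2 - 2 + ξ j ω)}) n M ω := by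
      rw [← Pool.Agent.T9h55.RM.repM_ncard]
      rfl
    rw [e]
    obtain ⟨h5, h6⟩ := hn M hM1 hM2
    refine ⟨h5, h6.trans ?_⟩
    have h7 : (0 : ℝ) ≤ M / (Real.log n * Real.log M ^ 2) := by positivity
    have h8 : 8 * (24 * C * (C ^ 2 + C)) ≤ 13 * (24 * (C ^ 3 + C ^ 2)) := by
      have : 0 < C ^ 3 := by positivity
      have : 0 < C ^ 2 := by positivity
      nlinarith
    calc 8 * (24 * C * (C ^ 2 + C) * (M / (Real.log n * Real.log M ^ 2)))
        = 8 * (24 * C * (C ^ 2 + C)) * (M / (Real.log n * Real.log M ^ 2)) := by ring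
      _ ≤ _ := mul_le_mul_of_nonneg_right h8 h7
  · filter_upwards [hω'] with N hN
    obtain ⟨n, hn1, hn2, hn3⟩ := hN
    exact ⟨n, hn1, hn2, fun m hm1 hm2 hw => hn3 m hm1 hm2 hw⟩

end Pool.Agent.Results.MP_04ff0f_nt.AlmostPrimesTinyPerturbations
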