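import Pool.Agent.T9h55.RM.Model

/-!
# Small independent perturbations of `p_j² - 2`: all large `n` are represented

Let `p_j` be the `j`-th prime. There are absolute constants `δ, c, C > 0` with the following property. Replace each number
`p_j² - 2` by `x_j = p_j² - 2 + ξ_j`, where the integers `ξ_1, ξ_2, …` are independent and `ξ_j` is uniformly distributed on
`0, …, H_j - 1`; here the `H_j` are arbitrary with `p_j^(2 (1 - δ)) ≤ H_j ≤ p_j²`, so the perturbations can be smaller than
`p_j²` by a power of `p_j`. Almost surely the number of the representations `n = k + m` with positive `k`, `m` for which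
`x_k`, `x_m`, `x_{p_m}` are all prime is between `c n / (log n)³` and `C n / (log n)³` for ALL large `n`; in particular every
large `n` is represented.

The indices are those of the problem: the third prime has the index `p_m`. The same variable can occur in up to three of the
conditions for one `n` (as `x_k`, `x_m` and `x_{p_m}` for different `m`), and all `n` share the same variables.

Inputs: primes in the intervals `[x, x + x^(1 - δ)]` (lower bound of the right order, starting library), the upper bound of Brun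
and Titchmarsh type, exponential moments for systems of disjoint groups of events, the lemma of Borel and Cantelli.
-/

set_option autoImplicit false

namespace Pool.Agent.Results.MP_04ff0f_nt.IndependentPerturbations

open MeasureTheory ProbabilityTheory Filter

/-- The `j`-th prime `p_j`, `j ≥ 1` (`p_1 = 2`). -/
noncomputable def p (j : ℕ) : ℕ := Nat.nth Nat.Prime (j - 1)

/-- The number of the representations `n = k + m`, `k, m ≥ 1`, such that `x_k`, `x_m` and `x_{p_m}` are prime. -/
noncomputable def reps (x : ℕ → ℕ) (n : ℕ) : ℕ :=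
  {m : ℕ | 1 ≤ m ∧ m < n ∧ (x (n - m)).Prime ∧ (x m).Prime ∧ (x (p m)).Prime}.ncard

/-- The integers `ξ_0, ξ_1, …` are independent random variables (on a probability space), and for `j ≥ 1` the variable `ξ_j` is
uniformly distributed on `0, …, H_j - 1`. -/
structure Perturbation {Ω : Type*} [MeasurableSpace Ω] (μ : Measure Ω) (H : ℕ → ℕ) (ξ : ℕ → Ω → ℕ) : Prop where
  prob : IsProbabilityMeasure μ
  meas : ∀ j, Measurable (ξ j)
  indep : iIndepFun ξ μ
  unif : ∀ j, 1 ≤ j → ∀ h < H j, μ.real {ω | ξ j ω = h} = 1 / (H j : ℝ)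

universe u

/-- There are `δ, c, C > 0` such that for all `H_j` with `p_j^(2 (1 - δ)) ≤ H_j ≤ p_j²` there are perturbations `ξ` with these
`H_j`, and for all such perturbations almost surely, for all large `n`, the number of the representations `n = k + m` for
which the three numbers `x_k`, `x_m`, `x_{p_m}`, `x_j = p_j² - 2 + ξ_j`, are prime is between `c n / (log n)³` and
`C n / (log n)³`. -/
theorem result : ∃ δ c C : ℝ, 0 < δ ∧ δ < 1 ∧ 0 < c ∧ 0 < C ∧
    ∀ H : ℕ → ℕ, (∀ j, 1 ≤ j → (p j : ℝ) ^ (2 * (1 - δ)) ≤ H j ∧ (H j : ℝ) ≤ (p j : ℝ) ^ 2) →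
      (∃ (Ω : Type) (_ : MeasurableSpace Ω) (μ : Measure Ω) (ξ : ℕ → Ω → ℕ), Perturbation μ H ξ) ∧
      ∀ (Ω : Type u) [MeasurableSpace Ω] (μ : Measure Ω) (ξ : ℕ → Ω → ℕ), Perturbation μ H ξ →
        ∀ᵐ ω ∂μ, ∀ᶠ n : ℕ in atTop,
          c * (n / Real.log n ^ 3) ≤ (reps (fun j => p j ^ 2 - 2 + ξ j ω) n : ℝ) ∧
          (reps (fun j => p j ^ 2 - 2 + ξ j ω) n : ℝ) ≤ C * (n / Real.log n ^ 3) := by
  classical
  obtain ⟨δ, c, C, hδ, hδ1, hc, hC, hyp⟩ := Pool.Agent.T9h55.RM.prime_hyp.{u}
  refine ⟨δ, c ^ 3 / 64, 13 * (24 * (C ^ 3 + C ^ 2)), hδ, hδ1, by positivity, by positivity, fun H hH => ⟨?_, ?_⟩⟩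
  · obtain ⟨Ω, mΩ, μ, ξ, h1, h2, h3, h4⟩ := Pool.Agent.T9h55.RM.exists_unif H (fun j hj => by
      have h5 := (hH j hj).1
      have h6 : (0 : ℝ) < (p j : ℝ) ^ (2 * (1 - δ)) := Real.rpow_pos_of_pos (by
        have : 0 < p j := (Nat.prime_nth_prime (j - 1)).pos
        exact_mod_cast this) _
      have h7 : (0 : ℝ) < H j := lt_of_lt_of_le h6 h5
      exact_mod_cast h7)
    exact ⟨Ω, mΩ, μ, ξ, ⟨h1, h2, h3, h4⟩⟩
  · intro Ω _ μ ξ hξ
    have := hξ.prob
    obtain ⟨h1, h2, h3, h4⟩ := hyp μ H ξ hH hξ.meas hξ.indep hξ.unif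
    filter_upwards [Pool.Agent.T9h55.RM.law_rep h1 h2 hc hC h3 h4] with ω hω
    filter_upwards [hω] with n hn
    have e : reps (fun j => p j ^ 2 - 2 + ξ j ω) n =
        Pool.Agent.T9h55.RM.rep (fun j => {ω | (Pool.Agent.T9h55.RM.P j ^ 2 - 2 + ξ j ω).Prime}) n ω := by
      rw [← Pool.Agent.T9h55.RM.rep_ncard]
      rfl
    rw [e]
    refine ⟨hn.1, hn.2.trans (le_of_eq ?_)⟩
    ring

end Pool.Agent.Results.MP_04ff0f_nt.IndependentPerturbations
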