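import Pool.Agent.T9h55.RM.Model

/-!
# Independent perturbations of `p_j² - 2`: the size of the least `m`

Let `p_j` be the `j`-th prime, `x_j = p_j² - 2 + ξ_j` with independent integers `ξ_j`, uniformly distributed on
`0, …, H_j - 1`, where `p_j^(2 (1 - δ)) ≤ H_j ≤ p_j²`. How large is the least `m` for which `x_{n-m}`, `x_m`, `x_{p_m}` are all
prime? The answer is `(log n)² (log log n)²` up to constants, in the following precise sense. Almost surely:

(1) for ALL large `n` and ALL `M` with `A (log n)² (log log n)² ≤ M ≤ √n / 2` the number of the `m ≤ M` with these three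
numbers prime is between `c M / (log n (log M)²)` and `C M / (log n (log M)²)`, in particular such `m` exist;

(2) for all large `N` there is an `n` with `N < n ≤ 2N` such that there is no such `m ≤ a (log n)² (log log n)²`.

The constants `δ, a, A, c, C > 0` are absolute.

Part (2) uses the independence of the block of the small indices `m`, `p_m` and the block of the large indices `n - m`: given
the first block, the sets of large indices of many well spaced `n` are independent.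
-/

set_option autoImplicit false

namespace Pool.Agent.Results.MP_04ff0f_nt.LeastSummand

open MeasureTheory ProbabilityTheory Filter

/-- The `j`-th prime `p_j`, `j ≥ 1` (`p_1 = 2`). -/
noncomputable def p (j : ℕ) : ℕ := Nat.nth Nat.Prime (j - 1)

/-- `n = (n - m) + m` is a representation of the kind of the problem for the numbers `x_j`: the numbers `x_{n-m}`, `x_m` and
`x_{p_m}` are prime. -/
def Works (x : ℕ → ℕ) (n m : ℕ) : Prop := (x (n - m)).Prime ∧ (x m).Prime ∧ (x (p m)).Prime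

/-- The number of the `m`, `1 ≤ m ≤ M`, which work for `n`. -/
noncomputable def repsUpTo (x : ℕ → ℕ) (n M : ℕ) : ℕ := {m : ℕ | 1 ≤ m ∧ m ≤ M ∧ Works x n m}.ncard

/-- The integers `ξ_0, ξ_1, …` are independent random variables (on a probability space), and for `j ≥ 1` the variable `ξ_j` is
uniformly distributed on `0, …, H_j - 1`. -/
structure Perturbation {Ω : Type*} [MeasurableSpace Ω] (μ : Measure Ω) (H : ℕ → ℕ) (ξ : ℕ → Ω → ℕ) : Prop where
  prob : IsProbabilityMeasure μ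
  meas : ∀ j, Measurable (ξ j)
  indep : iIndepFun ξ μ
  unif : ∀ j, 1 ≤ j → ∀ h < H j, μ.real {ω | ξ j ω = h} = 1 / (H j : ℝ)

universe u

/-- There are `δ, a, A, c, C > 0` such that for all `H_j` with `p_j^(2 (1 - δ)) ≤ H_j ≤ p_j²` and all perturbations `ξ` with
these `H_j`, `x_j = p_j² - 2 + ξ_j`, almost surely: (1) for all large `n` and all `M ≥ A (log n)² (log log n)²` with `4 M² ≤ n`
the number of the `m ≤ M` which work for `n` is between `c M / (log n (log M)²)` and `C M / (log n (log M)²)`; (2) for all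
large `N` there is an `n`, `N < n ≤ 2N`, for which no `m ≤ a (log n)² (log log n)²` works. -/
theorem result : ∃ δ a A c C : ℝ, 0 < δ ∧ δ < 1 ∧ 0 < a ∧ 0 < A ∧ 0 < c ∧ 0 < C ∧
    ∀ H : ℕ → ℕ, (∀ j, 1 ≤ j → (p j : ℝ) ^ (2 * (1 - δ)) ≤ H j ∧ (H j : ℝ) ≤ (p j : ℝ) ^ 2) →
      ∀ (Ω : Type u) [MeasurableSpace Ω] (μ : Measure Ω) (ξ : ℕ → Ω → ℕ), Perturbation μ H ξ → ∀ᵐ ω ∂μ,
        (∀ᶠ n : ℕ in atTop, ∀ M : ℕ, A * (Real.log n ^ 2 * Real.log (Real.log n) ^ 2) ≤ M → 4 * M ^ 2 ≤ n →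
          c * (M / (Real.log n * Real.log M ^ 2)) ≤ (repsUpTo (fun j => p j ^ 2 - 2 + ξ j ω) n M : ℝ) ∧
          (repsUpTo (fun j => p j ^ 2 - 2 + ξ j ω) n M : ℝ) ≤ C * (M / (Real.log n * Real.log M ^ 2))) ∧
        ∀ᶠ N : ℕ in atTop, ∃ n : ℕ, N < n ∧ n ≤ 2 * N ∧
          ∀ m : ℕ, 1 ≤ m → (m : ℝ) ≤ a * (Real.log n ^ 2 * Real.log (Real.log n) ^ 2) →
            ¬ Works (fun j => p j ^ 2 - 2 + ξ j ω) n m := by
  classical
  obtain ⟨δ, c, C, hδ, hδ1, hc, hC, hyp⟩ := Pool.Agent.T9h55.RM.prime_hyp.{u}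
  set A : ℝ := 2592 / c ^ 3 + 27 / (48 * C * (C ^ 2 + C)) with hA
  have hA1 : 3 ≤ c ^ 3 / 96 * (A / 9) := by
    have h1 : 2592 / c ^ 3 ≤ A := by
      have : 0 < 27 / (48 * C * (C ^ 2 + C)) := by positivity
      linarith
    rw [div_le_iff₀ (by positivity)] at h1
    nlinarith
  have hA2 : 3 ≤ 2 * (24 * C * (C ^ 2 + C)) * (A / 9) := by
    have h1 : 27 / (48 * C * (C ^ 2 + C)) ≤ A := by
      have : 0 < 2592 / c ^ 3 := by positivity
      linarith
    rw [div_le_iff₀ (by positivity)] at h1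
    nlinarith
  refine ⟨δ, 1 / (768 * C * (C ^ 2 + C)) / 16, A, c ^ 3 / 128, 8 * (24 * C * (C ^ 2 + C)), hδ, hδ1, by positivity, by positivity,
    by positivity, by positivity, fun H hH => ?_⟩
  intro Ω _ μ ξ hξ
  have := hξ.prob
  obtain ⟨h1, h2, h3, h4⟩ := hyp μ H ξ hH hξ.meas hξ.indep hξ.unif
  filter_upwards [Pool.Agent.T9h55.RM.law_small h1 h2 hc hC h3 h4 hA1 hA2, Pool.Agent.T9h55.RM.law_gap h1 h2 hC h4] with ω hω hω'
  refine ⟨?_, ?_⟩
  · filter_upwards [hω] with n hn M hM1 hM2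
    have e : repsUpTo (fun j => p j ^ 2 - 2 + ξ j ω) n M =
        Pool.Agent.T9h55.RM.repM (fun j => {ω | (Pool.Agent.T9h55.RM.P j ^ 2 - 2 + ξ j ω).Prime}) n M ω := by
      rw [← Pool.Agent.T9h55.RM.repM_ncard]
      rfl
    rw [e]
    obtain ⟨h5, h6⟩ := hn M hM1 hM2
    exact ⟨h5, h6.trans (le_of_eq (by ring))⟩
  · filter_upwards [hω'] with N hN
    obtain ⟨n, hn1, hn2, hn3⟩ := hN
    exact ⟨n, hn1, hn2, fun m hm1 hm2 hw => hn3 m hm1 hm2 hw⟩

end Pool.Agent.Results.MP_04ff0f_nt.LeastSummand
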