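import Pool.Agent.T9h55.KU.Law
import Pool.Agent.T9h55.KU.Pl
import Pool.Agent.T9h55.KT.GoldLaw
import Pool.Agent.T9h56.MV.Hm
import Pool.Agent.T9h89.MV.Pu
import Pool.Agent.T9h55.RM.Model

/-!
# The numbers `p_j² - 2` and slightly moved primes: all large `n` are represented

Let `p_j` be the `j`-th prime, and let `M` be a product of powers of `2` and of primes `≡ 3, 5 mod 8` (these are the moduli to
which all numbers `p_j² - 2`, `j ≥ 2`, are coprime). Every prime `q` is replaced by `q + M ξ_q`, where the `ξ_q` are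
independent and `ξ_q` is uniformly distributed on `0, …, H_q - 1`, with `H_q` of the order `q / (log q)^A` for an arbitrary
fixed `A`: all residues of the primes modulo `M` are kept, and a prime is moved by a small proportion only. Let `V` be the set
of the moved primes. Almost surely, for ALL large `n`, there are at least `c n / (log n)³` representations `n = k + m` for
which the three numbers `p_k² - 2`, `p_m² - 2`, `p_{p_m}² - 2` are elements of `V`, with an explicit `c > 0`. The numbers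
`p_j² - 2` themselves are not changed.

Inputs: the theorem of Siegel and Walfisz (starting library), which counts the primes that can move to a given number; an
exponential bound for three groups of targets (the same variable can bear on many `n` and on all three conditions); the lemma
of Borel and Cantelli. The arithmetic of the problem enters through the coprimality of `p_j² - 2` to `M`.
-/

set_option autoImplicit false

namespace Pool.Agent.Results.MP_04ff0f_nt.MovedPrimes

open MeasureTheory ProbabilityTheory Filter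

/-- The `j`-th prime `p_j`, `j ≥ 1` (`p_1 = 2`). -/
noncomputable def p (j : ℕ) : ℕ := Nat.nth Nat.Prime (j - 1)

/-- The moved primes: the numbers `q + M x_q`, `q` prime. -/
def V (M : ℕ) (x : ℕ → ℕ) : Set ℕ := {v | ∃ q : ℕ, q.Prime ∧ v = q + M * x q}

/-- The number of the representations `n = k + m`, `k, m ≥ 1`, such that `p_k² - 2`, `p_m² - 2` and `p_{p_m}² - 2` are in
`V`. -/
noncomputable def reps (V : Set ℕ) (n : ℕ) : ℕ :=
  {m : ℕ | 1 ≤ m ∧ m < n ∧ p (n - m) ^ 2 - 2 ∈ V ∧ p m ^ 2 - 2 ∈ V ∧ p (p m) ^ 2 - 2 ∈ V}.ncard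

/-- The integers `ξ_0, ξ_1, …` are independent random variables (on a probability space), and for `j ≥ 1` the variable `ξ_j` is
uniformly distributed on `0, …, H_j - 1`. -/
structure Perturbation {Ω : Type*} [MeasurableSpace Ω] (μ : Measure Ω) (H : ℕ → ℕ) (ξ : ℕ → Ω → ℕ) : Prop where
  prob : IsProbabilityMeasure μ
  meas : ∀ j, Measurable (ξ j)
  indep : iIndepFun ξ μ
  unif : ∀ j, 1 ≤ j → ∀ h < H j, μ.real {ω | ξ j ω = h} = 1 / (H j : ℝ)

/-- `H_n` is between `n / (K (log n)^A)` and `K n / (log n)^A` for all large `n`. -/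
def Ranges (A K : ℕ) (H : ℕ → ℕ) : Prop :=
  ∀ᶠ n : ℕ in atTop, (n : ℝ) / (K * Real.log n ^ A) ≤ H n ∧ (H n : ℝ) ≤ K * n / Real.log n ^ A

universe u

/-- Let `A ≥ 0`, `K ≥ 1`, and let all prime factors of `M ≥ 1` be `2` or `≡ 3, 5 mod 8`. (1) For `K ≥ 2` there are `H` with
the order `n / (log n)^A`, and for all `H` with `H_n ≥ 1` (`n ≥ 1`) there are perturbations. (2) For all `H` of this order and
all perturbations `ξ`, almost surely, for all large `n` at least `c n / (log n)³` indices `m`, `1 ≤ m < n`, satisfy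
`p_{n-m}² - 2, p_m² - 2, p_{p_m}² - 2 ∈ V = {q + M ξ_q : q prime}`, `c = 1 / (2^35 8^A K^6 M^3)`. -/
theorem result (A K M : ℕ) (hK : 1 ≤ K) (hM1 : 1 ≤ M)
    (hM : ∀ q : ℕ, q.Prime → q ∣ M → q = 2 ∨ q % 8 = 3 ∨ q % 8 = 5) :
    ((2 ≤ K → ∃ H : ℕ → ℕ, (∀ n, 1 ≤ H n) ∧ Ranges A K H) ∧
      ∀ H : ℕ → ℕ, (∀ n, 1 ≤ n → 1 ≤ H n) →
        ∃ (Ω : Type) (_ : MeasurableSpace Ω) (μ : Measure Ω) (ξ : ℕ → Ω → ℕ), Perturbation μ H ξ) ∧
    ∀ H : ℕ → ℕ, Ranges A K H →
      ∀ (Ω : Type u) [MeasurableSpace Ω] (μ : Measure Ω) (ξ : ℕ → Ω → ℕ), Perturbation μ H ξ →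
        ∀ᵐ ω ∂μ, ∀ᶠ n : ℕ in atTop,
          1 / (2 ^ 35 * 8 ^ A * (K : ℝ) ^ 6 * (M : ℝ) ^ 3) * (n / Real.log n ^ 3) ≤ (reps (V M fun q => ξ q ω) n : ℝ) := by
  have hlog : Tendsto (fun k : ℕ => Real.log (k : ℝ)) atTop atTop :=
    Real.tendsto_log_atTop.comp tendsto_natCast_atTop_atTop
  refine ⟨⟨fun hK2 => ?_, fun H hH => ?_⟩, ?_⟩
  · obtain ⟨H, hH1, hH2⟩ := Pool.Agent.T9h55.KT.exists_H A (fun _ => 0) (by
      filter_upwards [hlog.eventually_ge_atTop 1] with k hk
      simpa using hk)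
    refine ⟨H, hH2, ?_⟩
    filter_upwards [hH1, hlog.eventually_ge_atTop 1] with n hn hL
    simp only [Nat.factorial_zero, Nat.cast_one, one_mul] at hn
    have hL0 : 0 < Real.log (n : ℝ) ^ A := by positivity
    have hK2' : (2 : ℝ) ≤ K := by exact_mod_cast hK2
    constructor
    · refine le_trans ?_ hn.1
      apply div_le_div_of_nonneg_left (Nat.cast_nonneg _) hL0
      nlinarith
    · refine hn.2.trans ?_
      rw [mul_div_assoc]
      exact mul_le_mul_of_nonneg_right hK2' (by positivity)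
  · obtain ⟨Ω, mΩ, μ, ξ, h1, h2, h3, h4⟩ := Pool.Agent.T9h55.RM.exists_unif H hH
    exact ⟨Ω, mΩ, μ, ξ, ⟨h1, h2, h3, h4⟩⟩
  · intro H hH Ω _ μ ξ hξ
    have := hξ.prob
    filter_upwards [Pool.Agent.T9h55.KU.law Pool.Agent.T9h89.MV.pu Pool.Agent.T9h55.KU.pl Pool.Agent.T9h56.MV.hm.{u}
      A K M hK hM1 hM H ξ hH hξ.meas hξ.indep hξ.unif] with ω hω
    filter_upwards [hω] with n hn
    refine le_trans (le_of_eq ?_) hn
    have e8 : (8 : ℝ) ^ A = (2 ^ A) ^ 3 := by
      rw [← pow_mul, mul_comm A 3, pow_mul]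
      norm_num
    have hK0 : (K : ℝ) ≠ 0 := by
      have : K ≠ 0 := by omega
      exact_mod_cast this
    have hM0 : (M : ℝ) ≠ 0 := by
      have : M ≠ 0 := by omega
      exact_mod_cast this
    rw [e8]
    congr 1
    field_simp
    norm_num

end Pool.Agent.Results.MP_04ff0f_nt.MovedPrimes
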